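import Pool.Agent.helper99.PLR.Spec

/-! Row plr:GS (helper92). -/

set_option autoImplicit false
set_option linter.unusedVariables false

open scoped Classical

namespace Pool.Agent.PLR

open Finset
open Pool.Agent.helper65.HC (V IsEig IsTop lam)
open Pool.Agent.helper9.HQ (Fam Dn E N Le Eig lk)
open Pool.Agent.helper9.HX (Ef)
open Pool.Agent.helper9.HLR (cel Lc)

noncomputable section

private theorem GS_mem {k d : ℕ} (x : Finset (Fin d)) : x ∈ ball k d ↔ x.card ≤ k := by
  unfold ball
  rw [mem_filter]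
  exact ⟨fun h => h.2, fun h => ⟨mem_univ _, h⟩⟩

/-- exchange of the sums -/
private theorem GS_swap {d : ℕ} (U : Fam d) (G : Finset (Fin d) → Fin d → ℝ) :
    ∑ x ∈ U, ∑ i ∈ x, G x i = ∑ i : Fin d, ∑ x ∈ U.filter (fun x => i ∈ x), G x i := by
  have h1 : ∀ x ∈ U, ∑ i ∈ x, G x i = ∑ i : Fin d, if i ∈ x then G x i else 0 := by
    intro x _
    rw [← sum_filter]
    refine sum_congr ?_ fun _ _ => rfl
    ext i
    simp
  rw [sum_congr rfl h1, sum_comm]
  refine sum_congr rfl fun i _ => ?_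
  rw [sum_filter]

/-- removing an element -/
private theorem GS_bij {k d : ℕ} (i : Fin d) (H : ℕ → ℝ) (f : Finset (Fin d) → ℝ) :
    ∑ x ∈ (ball k d).filter (fun x => i ∈ x), H x.card * f (x.erase i) ^ 2 =
      ∑ y ∈ (ball k d).filter (fun y => i ∉ y ∧ y.card + 1 ≤ k), H (y.card + 1) * f y ^ 2 := by
  refine sum_nbij' (fun x => x.erase i) (fun y => insert i y) ?_ ?_ ?_ ?_ ?_
  · intro x hx
    rw [mem_filter, GS_mem] at hx ⊢
    have h1 := card_erase_of_mem hx.2
    have h2 : 0 < x.card := card_pos.mpr ⟨i, hx.2⟩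
    exact ⟨by omega, notMem_erase i x, by omega⟩
  · intro y hy
    rw [mem_filter, GS_mem] at hy ⊢
    have h1 := card_insert_of_notMem hy.2.1
    exact ⟨by omega, mem_insert_self i y⟩
  · intro x hx
    rw [mem_filter] at hx
    exact insert_erase hx.2
  · intro y hy
    rw [mem_filter] at hy
    exact erase_insert hy.2.1
  · intro x hx
    rw [mem_filter] at hx
    have h1 := card_erase_of_mem hx.2
    have h2 : 0 < x.card := card_pos.mpr ⟨i, hx.2⟩
    have h3 : (x.erase i).card + 1 = x.card := by omega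
    rw [h3]

theorem GS (hWTS : WTS_stmt) : GS_stmt := by
  intro k d hd f
  obtain ⟨c, C, -, -, hW⟩ := hWTS k
  obtain ⟨w0, wpos, wz, wrec, -, -, -, -⟩ := hW d hd
  have wnn : ∀ j, 0 ≤ wt k d j := by
    intro j
    rcases Nat.lt_or_ge k j with h | h
    · rw [wz j h]
    · exact (wpos j h).le
  -- the terms
  have hterm : ∀ x ∈ ball k d, ∀ i ∈ x, wt k d x.card * wt k d (x.card - 1) *
      (f x / wt k d x.card - f (x.erase i) / wt k d (x.card - 1)) ^ 2 =
      wt k d (x.card - 1) / wt k d x.card * f x ^ 2 +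
        wt k d x.card / wt k d (x.card - 1) * f (x.erase i) ^ 2 - 2 * (f x * f (x.erase i)) := by
    intro x hx i hi
    rw [GS_mem] at hx
    have h1 : wt k d x.card ≠ 0 := (wpos _ hx).ne'
    have h2 : wt k d (x.card - 1) ≠ 0 := (wpos _ (by omega)).ne'
    field_simp
    ring
  have hsum : ∑ x ∈ ball k d, ∑ i ∈ x, wt k d x.card * wt k d (x.card - 1) *
      (f x / wt k d x.card - f (x.erase i) / wt k d (x.card - 1)) ^ 2 =
      ∑ x ∈ ball k d, ∑ i ∈ x, wt k d (x.card - 1) / wt k d x.card * f x ^ 2 +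
        ∑ x ∈ ball k d, ∑ i ∈ x, wt k d x.card / wt k d (x.card - 1) * f (x.erase i) ^ 2 -
          E (ball k d) f := by
    rw [sum_congr rfl fun x hx => sum_congr rfl fun i hi => hterm x hx i hi]
    simp only [sum_sub_distrib, sum_add_distrib]
    congr 1
    unfold E
    rw [mul_sum]
    refine sum_congr rfl fun x _ => ?_
    rw [mul_sum]
  -- the first part
  have h1 : ∑ x ∈ ball k d, ∑ i ∈ x, wt k d (x.card - 1) / wt k d x.card * f x ^ 2 =
      ∑ x ∈ ball k d, (x.card : ℝ) * wt k d (x.card - 1) / wt k d x.card * f x ^ 2 := by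
    refine sum_congr rfl fun x _ => ?_
    rw [sum_const, nsmul_eq_mul]
    ring
  -- the second part
  have h2 : ∑ x ∈ ball k d, ∑ i ∈ x, wt k d x.card / wt k d (x.card - 1) * f (x.erase i) ^ 2 ≤
      ∑ x ∈ ball k d, (d : ℝ) * wt k d (x.card + 1) / wt k d x.card * f x ^ 2 := by
    rw [GS_swap (ball k d) (fun x i => wt k d x.card / wt k d (x.card - 1) * f (x.erase i) ^ 2)]
    have h3 : ∀ i ∈ (univ : Finset (Fin d)),
        ∑ x ∈ (ball k d).filter (fun x => i ∈ x), wt k d x.card / wt k d (x.card - 1) * f (x.erase i) ^ 2 ≤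
          ∑ y ∈ ball k d, wt k d (y.card + 1) / wt k d y.card * f y ^ 2 := by
      intro i _
      rw [GS_bij i (fun j => wt k d j / wt k d (j - 1)) f]
      simp only [Nat.add_sub_cancel]
      refine sum_le_sum_of_subset_of_nonneg (filter_subset _ _) fun y _ _ => ?_
      exact mul_nonneg (div_nonneg (wnn _) (wnn _)) (sq_nonneg _)
    refine (sum_le_sum h3).trans (le_of_eq ?_)
    rw [sum_const, card_univ, Fintype.card_fin, nsmul_eq_mul, mul_sum]
    refine sum_congr rfl fun y _ => ?_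
    ring
  -- together
  have h4 : ∑ x ∈ ball k d, (x.card : ℝ) * wt k d (x.card - 1) / wt k d x.card * f x ^ 2 +
      ∑ x ∈ ball k d, (d : ℝ) * wt k d (x.card + 1) / wt k d x.card * f x ^ 2 =
      hz (k + 1) * √d * N (ball k d) f := by
    unfold N
    rw [mul_sum, ← sum_add_distrib]
    refine sum_congr rfl fun x hx => ?_
    rw [GS_mem] at hx
    have h5 : wt k d x.card ≠ 0 := (wpos _ hx).ne'
    have h6 := wrec x.card hx
    rw [← add_mul, ← add_div, h6, mul_div_assoc, div_self h5, mul_one]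
  rw [hsum, h1]
  linarith

end

end Pool.Agent.PLR
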